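import Mathlib
import Pool.Agent.Helper351.RE.B4

set_option autoImplicit false

namespace Pool.Agent.Results.MP_202db4_al.PolyRightOrderable

/-- The smallest class of groups that contains the trivial groups and that contains `G` as soon as it
contains `G ⧸ A` for some normal subgroup `A` of `G` which is abelian, finite or right-orderable
(carries a linear order invariant under right multiplication). -/
inductive PolyRO : ∀ (G : Type) [Group G], Prop
  | triv (G : Type) [Group G] (h : ∀ x : G, x = 1) : PolyRO G
  | ext (G : Type) [Group G] (A : Subgroup G) [A.Normal]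
      (hA : (∀ x ∈ A, ∀ y ∈ A, x * y = y * x) ∨ Finite A ∨
        ∃ _ : LinearOrder A, ∀ a b c : A, a ≤ b → a * c ≤ b * c)
      (hQ : PolyRO (G ⧸ A)) : PolyRO G

theorem to_lib (G : Type) [Group G] (h : PolyRO G) : Pool.Agent.Helper351.RE.PolyRO G := by
  induction h with
  | triv G h => exact Pool.Agent.Helper351.RE.PolyRO.triv G h
  | ext G A hA hQ ih => exact Pool.Agent.Helper351.RE.PolyRO.ext G A hA ih

/-- Let `G` be a group in the class `PolyRO`. Then (i) for all `N, r` there is `c` such that every
subgroup of `G` generated by `r` left `N`-Engel elements is nilpotent of class at most `c`;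
(ii) the bounded left Engel elements of `G` form a subgroup. -/
theorem result (G : Type) [Group G] (h : PolyRO G) :
    (∀ N r : ℕ, ∃ c : ℕ, ∀ b : Fin r → G,
      (∀ i x, (fun y : G => y⁻¹ * (b i)⁻¹ * y * b i)^[N] x = 1) →
        Subgroup.lowerCentralSeries (Subgroup.closure (Set.range b)) c = ⊥) ∧
    ∃ H : Subgroup G,
      (H : Set G) = {g : G | ∃ n : ℕ, ∀ x : G, (fun y : G => y⁻¹ * g⁻¹ * y * g)^[n] x = 1} := by
  have hBC := Pool.Agent.Helper351.RE.bc_poly G (to_lib G h)
  refine ⟨hBC, ?_⟩
  obtain ⟨H, hH⟩ := Pool.Agent.Helper351.RE.left_main G hBC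
  refine ⟨H, ?_⟩
  ext g
  exact hH g

end Pool.Agent.Results.MP_202db4_al.PolyRightOrderable
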